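import Pool.Agent.Lib.MP_abc6c1_co.Search

namespace Pool.Agent.Lib.MP_abc6c1_co

/-- mask of the complement of the difference set of the inversion graph, without zero -/
def zm : ℕ := 13757995105752115125721352107728379062544592323603970018326186764134580398110383658527997117597493986199827345376464639870488598639432128845221979564074438546962393129250846039415734638748948982300922612745669670618713170441505399413950614033423012128215460929212592156620505522805183292057187753377264566270

/-- table of inverses in `F_32` (modulus `X^5 + X^2 + 1`) -/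
def tinv : List ℕ := [0, 1, 18, 28, 9, 23, 14, 12, 22, 4, 25, 16, 7, 15, 6, 13, 11, 24, 2, 29, 30,
  26, 8, 5, 17, 10, 21, 31, 3, 19, 20, 27]

/-- inversion on codes -/
def iv (x : ℕ) : ℕ := tinv.getD x 0

theorem iv_lt : ∀ x < 32, iv x < 32 := by decide +kernel

theorem zm_spec' : ∀ z < 1024, zm.testBit z = false →
    z = 0 ∨ ∃ x < 32, (x ^^^ (z / 32)) ≠ x ∧ (x ^^^ (z / 32)) < 32 ∧
      32 * (z / 32) + (iv x ^^^ iv (x ^^^ (z / 32))) = z := by
  decide +kernel

theorem zm_spec (z : ℕ) (hz : z < 1024) (h : zm.testBit z = false) :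
    z = 0 ∨ ∃ x < 32, ∃ y < 32, x ≠ y ∧ 32 * (x ^^^ y) + (iv x ^^^ iv y) = z := by
  rcases zm_spec' z hz h with h0 | ⟨x, hx, h1, h2, h3⟩
  · exact Or.inl h0
  · right
    refine ⟨x, hx, x ^^^ (z / 32), h2, fun hc => h1 hc.symm, ?_⟩
    have h4 : x ^^^ (x ^^^ (z / 32)) = z / 32 := by
      rw [← Nat.xor_assoc, Nat.xor_self, Nat.zero_xor]
    rw [h4]
    exact h3

theorem search_ok : ∀ b < 32, zm.testBit (32 + b) = true → ref 5 (xs 10 zm (32 + b)) 0 = true := by
  decide +kernel

end Pool.Agent.Lib.MP_abc6c1_co
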