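import Pool.Agent.Lib.MP_abc6c1_co.Model

/-! Every nonzero value of a surjective additive map on `F × F`, `|F| = 32`, is attained at a
difference of two points of the graph of inversion. -/

namespace Pool.Agent.Lib.MP_abc6c1_co

variable {F : Type*} [Field F]

theorem two_eq_zero [Finite F] (hF : Nat.card F = 32) : (2 : F) = 0 := by
  have := Fintype.ofFinite F
  have hcard : Fintype.card F = 32 := by rw [← Nat.card_eq_fintype_card]; exact hF
  have h1 : ((Fintype.card F : ℕ) : F) = 0 := Nat.cast_card_eq_zero F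
  rw [hcard] at h1
  have h2 : (2 : F) ^ 5 = 0 := by
    have : ((32 : ℕ) : F) = 2 ^ 5 := by norm_num
    rw [← this]
    exact h1
  exact pow_eq_zero_iff (by norm_num) |>.mp h2

/-- coding of `F × F` -/
def E (a : F) (z : ℕ) : F × F := (e a (z / 32), e a (z % 32))

theorem E_xor (h2 : (2 : F) = 0) (a : F) (u v : ℕ) : E a (u ^^^ v) = E a u + E a v := by
  unfold E
  have h3 : (u ^^^ v) / 32 = (u / 32) ^^^ (v / 32) := by
    have h4 : ∀ t : ℕ, t / 32 = t >>> 5 := fun t => by
      rw [Nat.shiftRight_eq_div_pow]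
    rw [h4, h4, h4, Nat.shiftRight_xor_distrib]
  have h5 : (u ^^^ v) % 32 = (u % 32) ^^^ (v % 32) := by
    have := @Nat.xor_mod_two_pow u v 5
    simpa using this
  rw [h3, h5, e_xor h2, e_xor h2]
  rfl

theorem E_split (a : F) (x y : ℕ) (hy : y < 32) : E a (32 * x + y) = (e a x, e a y) := by
  unfold E
  have h1 : (32 * x + y) / 32 = x := by omega
  have h2 : (32 * x + y) % 32 = y := by omega
  rw [h1, h2]

theorem flats_one [Finite F] (hF : Nat.card F = 32) (φ : F × F →+ F)
    (hφ : Function.Surjective φ) (c : F) (hc : c ≠ 0) (b0 : F) (hb0 : φ (1, b0) = c) :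
    ∃ x y : F, x ≠ y ∧ φ (x + y, x⁻¹ + y⁻¹) = c := by
  classical
  have h2 : (2 : F) = 0 := two_eq_zero hF
  obtain ⟨a, ha⟩ := exists_root hF h2
  by_contra hcon
  push Not at hcon
  obtain ⟨b, hb, hbe⟩ := e_surj hF h2 a ha b0
  have := Fintype.ofFinite F
  have hcard : Fintype.card F = 32 := by rw [← Nat.card_eq_fintype_card]; exact hF
  have hEinj : ∀ u < 1024, ∀ v < 1024, E a u = E a v → u = v := by
    intro u hu v hv huv
    have h3 := congrArg Prod.fst huv
    have h4 := congrArg Prod.snd huv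
    simp only [E] at h3 h4
    have h5 := e_inj h2 a ha (u / 32) (v / 32) (by omega) (by omega) h3
    have h6 := e_inj h2 a ha (u % 32) (v % 32) (by omega) (by omega) h4
    omega
  have hEsurj : ∀ p : F × F, ∃ z < 1024, E a z = p := by
    rintro ⟨x, y⟩
    obtain ⟨u, hu, hux⟩ := e_surj hF h2 a ha x
    obtain ⟨v, hv, hvy⟩ := e_surj hF h2 a ha y
    exact ⟨32 * u + v, by omega, by rw [E_split a u v hv, hux, hvy]⟩
  set W : Finset ℕ := (Finset.range 1024).filter (fun z => φ (E a z) = 0) with hW
  have hmem : ∀ z : ℕ, z ∈ W ↔ z < 1024 ∧ φ (E a z) = 0 := by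
    intro z
    rw [hW, Finset.mem_filter, Finset.mem_range]
  have hcl : ∀ u ∈ W, ∀ v ∈ W, u ^^^ v ∈ W := by
    intro u hu v hv
    rw [hW, Finset.mem_filter, Finset.mem_range] at hu hv ⊢
    refine ⟨?_, ?_⟩
    · have hu' : u < 2 ^ 10 := by simpa using hu.1
      have hv' : v < 2 ^ 10 := by simpa using hv.1
      simpa using Nat.xor_lt_two_pow hu' hv'
    · rw [E_xor h2, map_add, hu.2, hv.2, add_zero]
  have hWcard : W.card = 2 ^ 5 := by
    have hk : Nat.card φ.ker * Nat.card F = Nat.card (F × F) := by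
      have h3 : Nat.card (F × F) = Nat.card ((F × F) ⧸ φ.ker) * Nat.card φ.ker :=
        AddSubgroup.card_eq_card_quotient_mul_card_addSubgroup φ.ker
      have h4 : Nat.card ((F × F) ⧸ φ.ker) = Nat.card F :=
        Nat.card_congr (QuotientAddGroup.quotientKerEquivOfSurjective φ hφ).toEquiv
      rw [h3, h4, mul_comm]
    rw [Nat.card_prod, hF] at hk
    have hk2 : Nat.card φ.ker = 32 := by omega
    have h5 : Nat.card W = Nat.card φ.ker := by
      apply Nat.card_eq_of_bijective
        (fun z : W => (⟨E a z.1, ((hmem z.1).mp z.2).2⟩ : φ.ker))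
      constructor
      · intro u v huv
        have h6 := congrArg Subtype.val huv
        simp only at h6
        exact Subtype.ext (hEinj _ ((hmem u.1).mp u.2).1 _ ((hmem v.1).mp v.2).1 h6)
      · rintro ⟨p, hp⟩
        obtain ⟨z, hz, hzp⟩ := hEsurj p
        exact ⟨⟨z, (hmem z).mpr ⟨hz, by rw [hzp]; exact hp⟩⟩, Subtype.ext hzp⟩
    have h6 : Nat.card W = W.card := by
      rw [Nat.card_eq_fintype_card, Fintype.card_coe]
    rw [← h6, h5, hk2]
    norm_num
  have hE1 : E a (32 + b) = (1, b0) := by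
    have h3 := E_split a 1 b hb
    rw [e_one, hbe] at h3
    simpa using h3
  have hgood : ∀ v ∈ W, (xs 10 zm (32 + b)).testBit v = true := by
    intro v hv
    rw [hW, Finset.mem_filter, Finset.mem_range] at hv
    rw [xs_testBit (32 + b) 10 (le_refl _) zm v hv.1]
    have h3 : (32 + b) % 2 ^ 10 = 32 + b := Nat.mod_eq_of_lt (by norm_num; omega)
    rw [h3]
    by_contra hbad
    have hbad' : zm.testBit (v ^^^ (32 + b)) = false := by simpa using hbad
    have hlt : v ^^^ (32 + b) < 1024 := by
      have hu' : v < 2 ^ 10 := by simpa using hv.1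
      have hv' : 32 + b < 2 ^ 10 := by norm_num; omega
      simpa using Nat.xor_lt_two_pow hu' hv'
    have hval : φ (E a (v ^^^ (32 + b))) = c := by
      rw [E_xor h2, map_add, hv.2, zero_add, hE1, hb0]
    rcases zm_spec _ hlt hbad' with h4 | ⟨x, hx, y, hy, hxy, h4⟩
    · rw [h4] at hval
      have h5 : E a 0 = 0 := by
        unfold E
        simp [e_zero]
      rw [h5, map_zero] at hval
      exact hc hval.symm
    · have hi : (iv x ^^^ iv y) < 32 := by
        have hu' : iv x < 2 ^ 5 := by simpa using iv_lt x hx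
        have hv' : iv y < 2 ^ 5 := by simpa using iv_lt y hy
        simpa using Nat.xor_lt_two_pow hu' hv'
      rw [← h4, E_split a _ _ hi, e_xor h2, e_xor h2, e_iv h2 a ha x hx, e_iv h2 a ha y hy] at hval
      exact hcon (e a x) (e a y) (fun h => hxy (e_inj h2 a ha x y hx hy h)) hval
  have h0 : (0 : ℕ) ∈ W := by
    rw [hW, Finset.mem_filter, Finset.mem_range]
    refine ⟨by norm_num, ?_⟩
    have h5 : E a 0 = 0 := by
      unfold E
      simp [e_zero]
    rw [h5, map_zero]
  have hz0 : zm.testBit (32 + b) = true := by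
    have h3 := hgood 0 h0
    rw [xs_testBit (32 + b) 10 (le_refl _) zm 0 (by norm_num)] at h3
    have h4 : (32 + b) % 2 ^ 10 = 32 + b := Nat.mod_eq_of_lt (by norm_num; omega)
    rw [h4, Nat.zero_xor] at h3
    exact h3
  exact ref_sound 5 (le_refl _) _ 0 (search_ok b hb hz0) W hcl hWcard
    (fun v hv => by
      rw [hW, Finset.mem_filter, Finset.mem_range] at hv
      exact hv.1)
    (fun v _ hv0 => by
      have : 2 ^ 0 = 1 := by norm_num
      omega) hgood

theorem flats [Finite F] (hF : Nat.card F = 32) (φ : F × F →+ F)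
    (hφ : Function.Surjective φ) (c : F) (hc : c ≠ 0) :
    ∃ x y : F, x ≠ y ∧ φ (x + y, x⁻¹ + y⁻¹) = c := by
  classical
  by_cases hex : ∃ p : F × F, φ p = c ∧ p.1 ≠ 0
  · obtain ⟨⟨s, b⟩, hp, hs⟩ := hex
    simp only at hs
    -- rescale by `s`
    let T : F × F →+ F × F :=
      { toFun := fun p => (s * p.1, s⁻¹ * p.2)
        map_zero' := by simp
        map_add' := fun p q => by simp [mul_add] }
    have hT : Function.Surjective T := by
      rintro ⟨x, y⟩
      refine ⟨(s⁻¹ * x, s * y), ?_⟩
      change (s * (s⁻¹ * x), s⁻¹ * (s * y)) = (x, y)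
      rw [mul_inv_cancel_left₀ hs, inv_mul_cancel_left₀ hs]
    obtain ⟨x, y, hxy, h⟩ := flats_one hF (φ.comp T) (hφ.comp hT) c hc (s * b) (by
      change φ (s * 1, s⁻¹ * (s * b)) = c
      rw [mul_one, inv_mul_cancel_left₀ hs]
      exact hp)
    refine ⟨s * x, s * y, fun h1 => hxy (mul_left_cancel₀ hs h1), ?_⟩
    change φ (s * (x + y), s⁻¹ * (x⁻¹ + y⁻¹)) = c at h
    rw [mul_inv, mul_inv, ← mul_add, ← mul_add]
    exact h
  · exfalso
    push Not at hex
    -- all solutions have first coordinate zero; then all `(0, y)` are solutions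
    have := Fintype.ofFinite F
    have hcard : Fintype.card F = 32 := by rw [← Nat.card_eq_fintype_card]; exact hF
    obtain ⟨p0, hp0⟩ := hφ c
    have hp01 : p0.1 = 0 := hex p0 hp0
    -- the kernel lies in `{0} × F`
    have hker : ∀ p : F × F, φ p = 0 → p.1 = 0 := by
      intro p hp
      have h1 : φ (p + p0) = c := by rw [map_add, hp, hp0, zero_add]
      have h2 := hex _ h1
      simpa [hp01] using h2
    have hk : Nat.card φ.ker * Nat.card F = Nat.card (F × F) := by
      have h3 : Nat.card (F × F) = Nat.card ((F × F) ⧸ φ.ker) * Nat.card φ.ker :=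
        AddSubgroup.card_eq_card_quotient_mul_card_addSubgroup φ.ker
      have h4 : Nat.card ((F × F) ⧸ φ.ker) = Nat.card F :=
        Nat.card_congr (QuotientAddGroup.quotientKerEquivOfSurjective φ hφ).toEquiv
      rw [h3, h4, mul_comm]
    rw [Nat.card_prod, hF] at hk
    have hk2 : Nat.card φ.ker = 32 := by omega
    have hinj : Function.Injective (fun p : φ.ker => p.1.2) := by
      intro p q hpq
      apply Subtype.ext
      apply Prod.ext
      · rw [hker p.1 p.2, hker q.1 q.2]
      · exact hpq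
    have hbij : Function.Bijective (fun p : φ.ker => p.1.2) := by
      rw [Nat.bijective_iff_injective_and_card]
      exact ⟨hinj, by rw [hk2, hF]⟩
    obtain ⟨q, hq⟩ := hbij.2 p0.2
    simp only at hq
    have h5 : q.1 = p0 := Prod.ext (by rw [hker q.1 q.2, hp01]) hq
    have h6 : φ q.1 = 0 := q.2
    rw [h5, hp0] at h6
    exact hc h6

end Pool.Agent.Lib.MP_abc6c1_co
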