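import Pool.Agent.Lib.MP_abc6c1_co.Compute

/-! A model of the field with 32 elements on the numbers below 32. -/

namespace Pool.Agent.Lib.MP_abc6c1_co

variable {F : Type*} [Field F]

/-- the element of `F` coded by the binary digits of `v` -/
def e (a : F) (v : ℕ) : F :=
  ∑ i ∈ Finset.range 5, if v.testBit i then a ^ i else 0

theorem e_zero (a : F) : e a 0 = 0 := by
  simp [e]

theorem e_one (a : F) : e a 1 = 1 := by
  simp [e, Finset.sum_range_succ, Nat.testBit, Nat.shiftRight_eq_div_pow]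

theorem e_xor (h2 : (2 : F) = 0) (a : F) (u v : ℕ) : e a (u ^^^ v) = e a u + e a v := by
  unfold e
  rw [← Finset.sum_add_distrib]
  apply Finset.sum_congr rfl
  intro i _
  rw [Nat.testBit_xor]
  cases u.testBit i <;> cases v.testBit i <;> simp
  have : a ^ i + a ^ i = 2 * a ^ i := by ring
  rw [this, h2, zero_mul]

theorem e_mul_inv (h2 : (2 : F) = 0) (a : F) (ha : a ^ 5 = a ^ 2 + 1) :
    ∀ v : ℕ, v < 32 → v ≠ 0 → e a v * e a (iv v) = 1 := by
  intro v hv hv0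
  have key : ∀ w : ℕ, w < 32 → w ≠ 0 → ∀ b0 b1 b2 b3 b4 c0 c1 c2 c3 c4 : Bool,
      b0 = w.testBit 0 → b1 = w.testBit 1 → b2 = w.testBit 2 → b3 = w.testBit 3 →
      b4 = w.testBit 4 → c0 = (iv w).testBit 0 → c1 = (iv w).testBit 1 →
      c2 = (iv w).testBit 2 → c3 = (iv w).testBit 3 → c4 = (iv w).testBit 4 →
      ((((if b0 then a ^ 0 else 0) + if b1 then a ^ 1 else 0) + if b2 then a ^ 2 else 0) +
        (if b3 then a ^ 3 else 0) + if b4 then a ^ 4 else 0) *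
      ((((if c0 then a ^ 0 else 0) + if c1 then a ^ 1 else 0) + if c2 then a ^ 2 else 0) +
        (if c3 then a ^ 3 else 0) + if c4 then a ^ 4 else 0) = 1 := by
    intro w hw hw0 b0 b1 b2 b3 b4 c0 c1 c2 c3 c4 e0 e1 e2 e3 e4 f0 f1 f2 f3 f4
    interval_cases w
    · exact absurd rfl hw0
    all_goals
      rw [e0, e1, e2, e3, e4, f0, f1, f2, f3, f4]
      simp only [iv, tinv]
      norm_num [Nat.testBit, Nat.shiftRight_eq_div_pow, List.getD]
    · linear_combination ((1)) * ha + ((1)*a^2) * h2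
    · linear_combination ((1)) * ha + ((1)*a^2 + (1)*a^3 + (1)*a^4) * h2
    · linear_combination ((1)) * ha + ((1)*a^2) * h2
    · linear_combination ((1)*a) * ha + ((1)*a + (1)*a^2 + (1)*a^3 + (1)*a^4) * h2
    · linear_combination ((1)) * ha + ((1)*a^2 + (1)*a^3 + (1)*a^4) * h2
    · linear_combination ((1)) * ha + ((1)*a^2 + (1)*a^3 + (1)*a^4) * h2
    · linear_combination ((1) + (1)*a^2) * ha + ((1)*a^2 + (1)*a^4) * h2
    · linear_combination ((1)) * ha + ((1)*a^2) * h2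
    · linear_combination ((1) + (1)*a + (1)*a^2) * ha + ((1)*a + (1)*a^2 + (1)*a^3 + (1)*a^4) * h2
    · linear_combination ((1) + (1)*a^2) * ha + ((1)*a^2 + (1)*a^4) * h2
    · linear_combination ((1)) * ha + ((1)*a^2 + (1)*a^3 + (1)*a^4) * h2
    · linear_combination ((2) + (1)*a) * ha + ((1) + (1)*a + (2)*a^2 + (2)*a^3 + (1)*a^4) * h2
    · linear_combination ((1)) * ha + ((1)*a^2 + (1)*a^3 + (1)*a^4) * h2
    · linear_combination ((2) + (1)*a) * ha + ((1) + (1)*a + (2)*a^2 + (2)*a^3 + (1)*a^4) * h2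
    · linear_combination ((1) + (1)*a^2) * ha + ((1)*a^2 + (1)*a^4) * h2
    · linear_combination ((1) + (1)*a^2 + (1)*a^3) * ha + ((1)*a^2 + (1)*a^3 + (1)*a^4) * h2
    · linear_combination ((1)) * ha + ((1)*a^2) * h2
    · linear_combination ((2) + (1)*a + (1)*a^2 + (1)*a^3) * ha + ((1) + (1)*a + (2)*a^2 + (2)*a^3 + (2)*a^4) * h2
    · linear_combination ((3) + (2)*a + (1)*a^2 + (1)*a^3) * ha + ((1) + (1)*a + (2)*a^2 + (2)*a^3 + (1)*a^4) * h2
    · linear_combination ((3) + (1)*a + (1)*a^2 + (1)*a^3) * ha + ((1) + (1)*a + (2)*a^2 + (2)*a^3 + (1)*a^4) * h2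
    · linear_combination ((1) + (1)*a^2) * ha + ((1)*a^2 + (1)*a^4) * h2
    · linear_combination ((1)*a) * ha + ((1)*a + (1)*a^2 + (1)*a^3 + (1)*a^4) * h2
    · linear_combination ((1) + (1)*a^2 + (1)*a^3) * ha + ((1)*a^2 + (1)*a^3 + (1)*a^4) * h2
    · linear_combination ((1) + (1)*a + (1)*a^2) * ha + ((1)*a + (1)*a^2 + (1)*a^3 + (1)*a^4) * h2
    · linear_combination ((3) + (1)*a + (1)*a^2 + (1)*a^3) * ha + ((1) + (1)*a + (2)*a^2 + (2)*a^3 + (1)*a^4) * h2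
    · linear_combination ((4) + (2)*a + (2)*a^2 + (1)*a^3) * ha + ((2) + (2)*a + (4)*a^2 + (3)*a^3 + (3)*a^4) * h2
    · linear_combination ((1)) * ha + ((1)*a^2 + (1)*a^3 + (1)*a^4) * h2
    · linear_combination ((2) + (1)*a + (1)*a^2 + (1)*a^3) * ha + ((1) + (1)*a + (2)*a^2 + (2)*a^3 + (2)*a^4) * h2
    · linear_combination ((3) + (2)*a + (1)*a^2 + (1)*a^3) * ha + ((1) + (1)*a + (2)*a^2 + (2)*a^3 + (1)*a^4) * h2
    · linear_combination ((4) + (2)*a + (2)*a^2 + (1)*a^3) * ha + ((2) + (2)*a + (4)*a^2 + (3)*a^3 + (3)*a^4) * h2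
  have h := key v hv hv0 _ _ _ _ _ _ _ _ _ _ rfl rfl rfl rfl rfl rfl rfl rfl rfl rfl
  unfold e
  simpa only [Finset.sum_range_succ, Finset.sum_range_zero, zero_add] using h

theorem e_iv (h2 : (2 : F) = 0) (a : F) (ha : a ^ 5 = a ^ 2 + 1) (v : ℕ) (hv : v < 32) :
    e a (iv v) = (e a v)⁻¹ := by
  by_cases hv0 : v = 0
  · subst hv0
    have : iv 0 = 0 := by decide
    rw [this, e_zero, inv_zero]
  · exact eq_inv_of_mul_eq_one_right (e_mul_inv h2 a ha v hv hv0)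

theorem e_inj (h2 : (2 : F) = 0) (a : F) (ha : a ^ 5 = a ^ 2 + 1) (u v : ℕ) (hu : u < 32)
    (hv : v < 32) (h : e a u = e a v) : u = v := by
  by_contra hne
  have h1 : u ^^^ v ≠ 0 := fun h0 => hne (Nat.xor_eq_zero_iff.mp h0)
  have h3 : u ^^^ v < 32 := by
    have hu' : u < 2 ^ 5 := by simpa using hu
    have hv' : v < 2 ^ 5 := by simpa using hv
    simpa using Nat.xor_lt_two_pow hu' hv'
  have h4 : e a (u ^^^ v) = 0 := by
    rw [e_xor h2, h]
    have : e a v + e a v = 2 * e a v := by ring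
    rw [this, h2, zero_mul]
  have h5 := e_mul_inv h2 a ha _ h3 h1
  rw [h4, zero_mul] at h5
  exact zero_ne_one h5

theorem e_surj [Finite F] (hF : Nat.card F = 32) (h2 : (2 : F) = 0) (a : F)
    (ha : a ^ 5 = a ^ 2 + 1) (y : F) : ∃ v < 32, e a v = y := by
  have hinj : Function.Injective (fun v : Fin 32 => e a (v : ℕ)) := by
    intro u v huv
    exact Fin.ext (e_inj h2 a ha _ _ u.2 v.2 huv)
  have hbij : Function.Bijective (fun v : Fin 32 => e a (v : ℕ)) := by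
    rw [Nat.bijective_iff_injective_and_card]
    exact ⟨hinj, by rw [hF]; simp⟩
  obtain ⟨v, hv⟩ := hbij.2 y
  exact ⟨v, v.2, hv⟩

theorem root_of_quintic (h2 : (2 : F) = 0) (z : F) (hz : z ≠ 0)
    (h : (z ^ 5 + z ^ 2 + 1) * (z ^ 5 + z ^ 3 + 1) * (z ^ 5 + z ^ 3 + z ^ 2 + z + 1) *
      (z ^ 5 + z ^ 4 + z ^ 2 + z + 1) * (z ^ 5 + z ^ 4 + z ^ 3 + z + 1) *
      (z ^ 5 + z ^ 4 + z ^ 3 + z ^ 2 + 1) = 0) : ∃ a : F, a ^ 5 = a ^ 2 + 1 := by
  have hw : z * z⁻¹ = 1 := mul_inv_cancel₀ hz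
  set w := z⁻¹ with hwdef
  have A : ∀ t : F, t ^ 5 + t ^ 2 + 1 = 0 → ∃ a : F, a ^ 5 = a ^ 2 + 1 := by
    intro t ht
    exact ⟨t, by linear_combination ht - (t ^ 2 + 1) * h2⟩
  have B : ∀ t : F, t ^ 5 + t ^ 3 + t ^ 2 + t + 1 = 0 → ∃ a : F, a ^ 5 = a ^ 2 + 1 := by
    intro t ht
    refine ⟨t ^ 5, ?_⟩
    linear_combination ((1) + t + t^4 + t^7 + t^8 + t^9 + t^13 + t^15 + t^17 + t^18 + t^20) * ht + ((-1) + (-1)*t + (-1)*t^2 + (-1)*t^3 + (-1)*t^4 + (-1)*t^5 + (-1)*t^6 + (-1)*t^7 + (-1)*t^8 + (-2)*t^9 + (-2)*t^10 + (-1)*t^11 + (-1)*t^12 + (-1)*t^13 + (-1)*t^14 + (-1)*t^15 + (-1)*t^16 + (-1)*t^17 + (-2)*t^18 + (-1)*t^19 + (-2)*t^20 + (-1)*t^21 + (-1)*t^22 + (-1)*t^23) * h2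
  have C : ∀ t : F, t ^ 5 + t ^ 4 + t ^ 3 + t + 1 = 0 → ∃ a : F, a ^ 5 = a ^ 2 + 1 := by
    intro t ht
    refine ⟨t ^ 3, ?_⟩
    linear_combination ((1) + t + t^2 + t^5 + t^7 + t^9 + t^10) * ht + ((-1) + (-1)*t + (-1)*t^2 + (-1)*t^3 + (-1)*t^4 + (-2)*t^5 + (-2)*t^6 + (-1)*t^7 + (-1)*t^8 + (-1)*t^9 + (-2)*t^10 + (-1)*t^11 + (-1)*t^12 + (-1)*t^13 + (-1)*t^14) * h2
  rcases mul_eq_zero.mp h with h | h
  · rcases mul_eq_zero.mp h with h | h
    · rcases mul_eq_zero.mp h with h | h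
      · rcases mul_eq_zero.mp h with h | h
        · rcases mul_eq_zero.mp h with h | h
          · exact A z h
          · skip
            apply A w
            have h3 : w ^ 5 * (z ^ 5 + z ^ 3 + 1) = 0 := by rw [h, mul_zero]
            have e5 : w ^ 5 * z ^ 5 = 1 := by
              have : w ^ 5 * z ^ 5 = (z * w) ^ 5 := by ring
              rw [this, hw, one_pow]
            have e3 : w ^ 5 * z ^ 3 = w ^ 2 := by
              have : w ^ 5 * z ^ 3 = w ^ 2 * (z * w) ^ 3 := by ring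
              rw [this, hw, one_pow, mul_one]
            linear_combination h3 - e5 - e3
        · exact B z h
      · skip
        apply C w
        have h3 : w ^ 5 * (z ^ 5 + z ^ 4 + z ^ 2 + z + 1) = 0 := by rw [h, mul_zero]
        have e5 : w ^ 5 * z ^ 5 = 1 := by
          have : w ^ 5 * z ^ 5 = (z * w) ^ 5 := by ring
          rw [this, hw, one_pow]
        have e4 : w ^ 5 * z ^ 4 = w := by
          have : w ^ 5 * z ^ 4 = w * (z * w) ^ 4 := by ring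
          rw [this, hw, one_pow, mul_one]
        have e2 : w ^ 5 * z ^ 2 = w ^ 3 := by
          have : w ^ 5 * z ^ 2 = w ^ 3 * (z * w) ^ 2 := by ring
          rw [this, hw, one_pow, mul_one]
        have e1 : w ^ 5 * z = w ^ 4 := by
          have : w ^ 5 * z = w ^ 4 * (z * w) ^ 1 := by ring
          rw [this, hw, one_pow, mul_one]
        linear_combination h3 - e5 - e4 - e2 - e1
    · exact C z h
  · skip
    apply B w
    have h3 : w ^ 5 * (z ^ 5 + z ^ 4 + z ^ 3 + z ^ 2 + 1) = 0 := by rw [h, mul_zero]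
    have e5 : w ^ 5 * z ^ 5 = 1 := by
      have : w ^ 5 * z ^ 5 = (z * w) ^ 5 := by ring
      rw [this, hw, one_pow]
    have e4 : w ^ 5 * z ^ 4 = w := by
      have : w ^ 5 * z ^ 4 = w * (z * w) ^ 4 := by ring
      rw [this, hw, one_pow, mul_one]
    have e3 : w ^ 5 * z ^ 3 = w ^ 2 := by
      have : w ^ 5 * z ^ 3 = w ^ 2 * (z * w) ^ 3 := by ring
      rw [this, hw, one_pow, mul_one]
    have e2 : w ^ 5 * z ^ 2 = w ^ 3 := by
      have : w ^ 5 * z ^ 2 = w ^ 3 * (z * w) ^ 2 := by ring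
      rw [this, hw, one_pow, mul_one]
    linear_combination h3 - e5 - e4 - e3 - e2

/-- every field with 32 elements contains a root of `X^5 + X^2 + 1` -/
theorem exists_root [Finite F] (hF : Nat.card F = 32) (h2 : (2 : F) = 0) :
    ∃ a : F, a ^ 5 = a ^ 2 + 1 := by
  classical
  haveI := Fintype.ofFinite F
  have hcard : Fintype.card F = 32 := by rw [← Nat.card_eq_fintype_card]; exact hF
  obtain ⟨z, hz⟩ : ∃ z : F, z ∉ ({0, 1} : Finset F) := by
    by_contra hcon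
    push Not at hcon
    have h1 : (Finset.univ : Finset F).card ≤ ({0, 1} : Finset F).card :=
      Finset.card_le_card (fun x _ => hcon x)
    rw [Finset.card_univ, hcard] at h1
    have h3 : ({0, 1} : Finset F).card ≤ 2 := Finset.card_le_two
    omega
  have hz0 : z ≠ 0 := by
    rintro rfl
    exact hz (by simp)
  have hz1 : z ≠ 1 := by
    rintro rfl
    exact hz (by simp)
  have h31 : z ^ 31 = 1 := by
    have := FiniteField.pow_card_sub_one_eq_one z hz0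
    rwa [hcard] at this
  apply root_of_quintic h2 z hz0
  have h3 : (z - 1) * ((z ^ 5 + z ^ 2 + 1) * (z ^ 5 + z ^ 3 + 1) * (z ^ 5 + z ^ 3 + z ^ 2 + z + 1) *
      (z ^ 5 + z ^ 4 + z ^ 2 + z + 1) * (z ^ 5 + z ^ 4 + z ^ 3 + z + 1) *
      (z ^ 5 + z ^ 4 + z ^ 3 + z ^ 2 + 1)) = 0 := by
    linear_combination h31 + ((-1)*z + (-2)*z^2 + (-4)*z^3 + (-6)*z^4 + (-11)*z^5 + (-14)*z^6 + (-19)*z^7 + (-24)*z^8 + (-26)*z^9 + (-33)*z^10 + (-27)*z^11 + (-28)*z^12 + (-22)*z^13 + (-12)*z^14 + (-10)*z^15 + (10)*z^16 + (12)*z^17 + (22)*z^18 + (28)*z^19 + (27)*z^20 + (33)*z^21 + (26)*z^22 + (24)*z^23 + (19)*z^24 + (14)*z^25 + (11)*z^26 + (6)*z^27 + (4)*z^28 + (2)*z^29 + z^30) * h2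
  rcases mul_eq_zero.mp h3 with h4 | h4
  · exact absurd (sub_eq_zero.mp h4) hz1
  · exact h4

end Pool.Agent.Lib.MP_abc6c1_co
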