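import Mathlib

/-! Search for xor-flats inside a subset of `[0, 1024)` given by a bit mask. -/

namespace Pool.Agent.Lib.MP_abc6c1_co

/-- mask of all `u < 1024` whose `i`-th bit is zero -/
def M (i : ℕ) : ℕ := (2 ^ 1024 - 1) / (2 ^ (2 ^ i) + 1)

/-- translate the mask by `2 ^ i` -/
def sw (S i : ℕ) : ℕ := ((S &&& M i) <<< (2 ^ i)) ||| ((S >>> (2 ^ i)) &&& M i)

/-- translate the mask by the low `i` bits of `h` -/
def xs : ℕ → ℕ → ℕ → ℕ
  | 0, S, _ => S
  | i + 1, S, h => xs i (if h.testBit i then sw S i else S) h

def m0 : ℕ := 59923104495410530257643506359634157787265899298076885757810027052577558601833654377569492440802512007040037959957131119219596589604805540830949143546491374792589297808288495092100739867082031373151027650695001922946050227447487627157971036846942412387783503561528766079982415312826572101611785443208074712405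
def m1 : ℕ := 35953862697246318154586103815780494672359539578846131454686016231546535161100192626541695464481507204224022775974278671531757953762883324498569486127894824875553578684973097055260443920249218823890616590417001153767630136468492576294782622108165447432670102136917259647989449187695943260967071265924844827443
def m2 : ℕ := 10574665499190093574878265828170733727164570464366509251378240068101922106205939007806381018965149177712947875286552550450517045224377448381932201802322007316339287848521499133900130564779182007026651938357941515814008863667203698910230182972989837480197088863799194014114543878734100959107962137036719066895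
def m3 : ℕ := 699491492164325255925799685131916238761858746670158199507510043415302240488330595847114697752558505918755306925569623959761827894219519931878783776807292312753960674804924067222965835024303868169078143782431929061627045456585458682777872025450689638767900819784382483423919244896808234649164810621105930495
def m4 : ℕ := 2743020179230535281946541939345750848555742525508196244463891865018732560317087494586393599377565894397365059124943060525486210366883083181910179450378780297812958991483673120165741788626975511839923752263378027203536180819116878732226270817108308850929253867045887029310881577406346282326553799069597695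
def m5 : ℕ := 41855804958468253215416862131907979778454107725009450118155365586182407620204276291770907358880301160328046586258184810029483623519757063820280685745923183539846145986816692000600865017772938381340388341514537443249396336985068988168808660090905282896115730467361995897392102061092763730264872452095
def m6 : ℕ := 9745314011399999079825087856739523064552525976596965881551925397018201298194122315297074087275581256833590487601395744005744951780045343217449061696331431509203394542567385587901876228620663761300800549174547043425925390537456083938846363324592488964804017437595582105683670264434074320895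
def m7 : ℕ := 528294531135665246352339784916516606517294807943820813192811729538211400001472535897918181471736777028254044331895631613250787768007518677792952317086889741124906620767309129894662251090542585738100845990744019557890744873615362666431441255911497635040213580733791338495
def m8 : ℕ := 1552518092300708935148979488462502555256886017116696611139052038026050952686363478522948466231546903925489524851003593840350987650737090830000565511011107708019742339038878425693560262461319812044393910951468561638530421117939613695
def m9 : ℕ := 13407807929942597099574024998205846127479365820592393377723561443721764030073546976801874298166903427690031858186486050853753882811946569946433649006084095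

/-- one step of the translation of a mask -/
def sti (i k m S h : ℕ) : ℕ :=
  cond (Nat.beq (Nat.land (Nat.shiftRight h i) 1) 0) S
    (Nat.lor (Nat.shiftLeft (Nat.land S m) k) (Nat.land (Nat.shiftRight S k) m))

/-- translation of a mask by `h < 1024` -/
def xs2 (S h : ℕ) : ℕ :=
  sti 0 1 m0 (sti 1 2 m1 (sti 2 4 m2 (sti 3 8 m3 (sti 4 16 m4 (sti 5 32 m5 (sti 6 64 m6 (sti 7 128 m7 (sti 8 256 m8 (sti 9 512 m9 S h) h) h) h) h) h) h) h) h) h

/-- the mask `M q` -/
def mk (q : ℕ) : ℕ := cond (Nat.beq q 9) m9 (cond (Nat.beq q 8) m8 (cond (Nat.beq q 7) m7 (cond (Nat.beq q 6) m6 (cond (Nat.beq q 5) m5 (cond (Nat.beq q 4) m4 (cond (Nat.beq q 3) m3 (cond (Nat.beq q 2) m2 (cond (Nat.beq q 1) m1 (m0)))))))))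

/-- position of the leading bit of `h < 1024` -/
def lead (h : ℕ) : ℕ :=
  cond (Nat.ble 512 h) 9 (cond (Nat.ble 256 h) 8 (cond (Nat.ble 128 h) 7 (cond (Nat.ble 64 h) 6
    (cond (Nat.ble 32 h) 5 (cond (Nat.ble 16 h) 4 (cond (Nat.ble 8 h) 3 (cond (Nat.ble 4 h) 2
      (cond (Nat.ble 2 h) 1 0))))))))

/-- check `f` on all bits of a mask (bits below `2 ^ k`, shifted by `b`) -/
noncomputable def go (f : ℕ → Bool) (k : ℕ) : ℕ → ℕ → Bool :=
  Nat.rec (fun b C => cond (Nat.beq C 0) true (f b))
    (fun k ih b C => cond (Nat.beq C 0) true
      (and (ih b (Nat.mod C (Nat.pow 2 (Nat.pow 2 k))))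
        (ih (Nat.add b (Nat.pow 2 k)) (Nat.shiftRight C (Nat.pow 2 k))))) k

/-- no `j`-dimensional subgroup of `S` with nonzero elements at least `2 ^ p` -/
noncomputable def ref (j : ℕ) : ℕ → ℕ → Bool :=
  Nat.rec (fun S _ => Nat.beq (Nat.land S 1) 0)
    (fun j ih S p =>
      go (fun h => ih (Nat.land (Nat.land S (xs2 S h)) (mk (lead h))) (Nat.succ (lead h)))
        (Nat.sub 10 j) 0
        (Nat.shiftLeft (Nat.shiftRight (Nat.mod S (Nat.pow 2 (Nat.pow 2 (Nat.sub 10 j))))
          (Nat.pow 2 p)) (Nat.pow 2 p))) j

theorem M_testBit : ∀ i < 10, ∀ v < 1024, (M i).testBit v = !(v.testBit i) := by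
  decide +kernel

theorem xor_two_pow : ∀ i < 10, ∀ v < 1024,
    v ^^^ 2 ^ i = (if v.testBit i then v - 2 ^ i else v + 2 ^ i) ∧ v ^^^ 2 ^ i < 1024 ∧
    (v.testBit i = true → 2 ^ i ≤ v) := by
  decide +kernel

theorem sw_testBit (S i v : ℕ) (hi : i < 10) (hv : v < 1024) :
    (sw S i).testBit v = S.testBit (v ^^^ 2 ^ i) := by
  obtain ⟨h1, h2, h3⟩ := xor_two_pow i hi v hv
  have hM := M_testBit i hi
  unfold sw
  rw [Nat.testBit_or, Nat.testBit_shiftLeft, Nat.testBit_and, Nat.testBit_and,
    Nat.testBit_shiftRight, hM v hv]
  by_cases hb : v.testBit i = true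
  · have h4 := h3 hb
    rw [if_pos hb] at h1
    have h5 : v - 2 ^ i < 1024 := by omega
    have h6 : (v - 2 ^ i).testBit i = false := by
      rw [← h1, Nat.testBit_xor, hb, Nat.testBit_two_pow_self]
      rfl
    rw [hM _ h5, h6, hb, h1]
    simp [h4]
  · have hb' : v.testBit i = false := by simpa using hb
    rw [if_neg hb] at h1
    rw [hb', h1]
    have h7 : (decide (v ≥ 2 ^ i) && (S.testBit (v - 2 ^ i) && (M i).testBit (v - 2 ^ i))) = false := by
      by_cases h8 : v ≥ 2 ^ i
      · have h9 : v - 2 ^ i < 1024 := lt_of_le_of_lt (Nat.sub_le _ _) hv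
        have h10 : (v - 2 ^ i).testBit i = true := by
          have := xor_two_pow i hi (v - 2 ^ i) h9
          by_contra hc
          have hc' : ((v - 2 ^ i).testBit i) = false := by simpa using hc
          have h11 := this.1
          rw [if_neg hc] at h11
          have h12 : v - 2 ^ i + 2 ^ i = v := by omega
          rw [h12] at h11
          have h13 : v.testBit i = true := by
            rw [← h11, Nat.testBit_xor, hc', Nat.testBit_two_pow_self]
            rfl
          rw [h13] at hb'
          exact absurd hb' (by decide)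
        rw [hM _ h9, h10]
        simp
      · simp [h8]
    rw [h7]
    simp [Nat.add_comm]

theorem xs_testBit (h : ℕ) : ∀ (i : ℕ), i ≤ 10 → ∀ (S v : ℕ), v < 1024 →
    (xs i S h).testBit v = S.testBit (v ^^^ (h % 2 ^ i)) := by
  intro i
  induction i with
  | zero =>
    intro _ S v hv
    simp [xs, Nat.mod_one]
  | succ i ih =>
    intro hi S v hv
    rw [xs, ih (by omega) _ v hv]
    have hlt : v ^^^ (h % 2 ^ i) < 1024 := by
      have h1 : h % 2 ^ i < 2 ^ 10 :=
        lt_of_lt_of_le (Nat.mod_lt _ (by positivity)) (Nat.pow_le_pow_right (by norm_num) (by omega))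
      have h2 : v < 2 ^ 10 := by simpa using hv
      simpa using Nat.xor_lt_two_pow h2 h1
    by_cases hb : h.testBit i = true
    · rw [if_pos hb, sw_testBit _ _ _ (by omega) hlt]
      congr 1
      apply Nat.eq_of_testBit_eq
      intro t
      simp only [Nat.testBit_xor, Nat.testBit_mod_two_pow, Nat.testBit_two_pow]
      rcases lt_trichotomy t i with ht | ht | ht
      · have h1 : t < i + 1 := by omega
        have h2 : i ≠ t := by omega
        simp [ht, h1, h2]
      · subst ht
        simp [hb]
      · have h1 : ¬ t < i + 1 := by omega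
        have h2 : i ≠ t := by omega
        have h3 : ¬ t < i := by omega
        simp [h1, h2, h3]
    · have hb' : h.testBit i = false := by simpa using hb
      rw [if_neg hb]
      congr 2
      apply Nat.eq_of_testBit_eq
      intro t
      simp only [Nat.testBit_mod_two_pow]
      rcases lt_trichotomy t i with ht | ht | ht
      · have h1 : t < i + 1 := by omega
        simp [ht, h1]
      · subst ht
        simp [hb']
      · have h1 : ¬ t < i + 1 := by omega
        have h3 : ¬ t < i := by omega
        simp [h1, h3]

theorem beq_testBit (h i : ℕ) : Nat.beq (Nat.land (Nat.shiftRight h i) 1) 0 = !(h.testBit i) := by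
  have h1 : (h.testBit i) = (1 &&& (h >>> i) != 0) := rfl
  have h2 : Nat.land (Nat.shiftRight h i) 1 = 1 &&& (h >>> i) := by
    rw [Nat.and_comm]
    rfl
  rw [h1, h2]
  by_cases h3 : 1 &&& (h >>> i) = 0
  · rw [h3]
    rfl
  · have h4 : ((1 &&& (h >>> i)) != 0) = true := by simpa using h3
    rw [h4]
    cases h5 : (1 &&& (h >>> i)) with
    | zero => exact absurd h5 h3
    | succ n => rfl

theorem sti_eq (i k m S h : ℕ) (hk : k = 2 ^ i) (hm : m = M i) :
    sti i k m S h = if h.testBit i then sw S i else S := by
  unfold sti
  rw [beq_testBit, hk, hm]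
  cases h.testBit i
  · rfl
  · rfl

theorem m0_eq : m0 = M 0 := by decide +kernel
theorem m1_eq : m1 = M 1 := by decide +kernel
theorem m2_eq : m2 = M 2 := by decide +kernel
theorem m3_eq : m3 = M 3 := by decide +kernel
theorem m4_eq : m4 = M 4 := by decide +kernel
theorem m5_eq : m5 = M 5 := by decide +kernel
theorem m6_eq : m6 = M 6 := by decide +kernel
theorem m7_eq : m7 = M 7 := by decide +kernel
theorem m8_eq : m8 = M 8 := by decide +kernel
theorem m9_eq : m9 = M 9 := by decide +kernel

theorem xs2_eq (S h : ℕ) : xs2 S h = xs 10 S h := by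
  unfold xs2
  rw [sti_eq 9 512 m9 _ _ (by norm_num) m9_eq, sti_eq 8 256 m8 _ _ (by norm_num) m8_eq,
    sti_eq 7 128 m7 _ _ (by norm_num) m7_eq, sti_eq 6 64 m6 _ _ (by norm_num) m6_eq,
    sti_eq 5 32 m5 _ _ (by norm_num) m5_eq, sti_eq 4 16 m4 _ _ (by norm_num) m4_eq,
    sti_eq 3 8 m3 _ _ (by norm_num) m3_eq, sti_eq 2 4 m2 _ _ (by norm_num) m2_eq,
    sti_eq 1 2 m1 _ _ (by norm_num) m1_eq, sti_eq 0 1 m0 _ _ (by norm_num) m0_eq]
  rfl

theorem mk_eq : ∀ q < 10, mk q = M q := by decide +kernel

theorem lead_eq : ∀ h < 1024, h ≠ 0 → (h.testBit (lead h) = true ∧ 2 ^ lead h ≤ h ∧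
    h < 2 ^ (lead h + 1) ∧ lead h < 10) := by
  decide +kernel

theorem go_sound (f : ℕ → Bool) : ∀ (k b C : ℕ), go f k b C = true →
    ∀ v, v < 2 ^ k → C.testBit v = true → f (b + v) = true := by
  intro k
  induction k with
  | zero =>
    intro b C h v hv hC
    have hv0 : v = 0 := by omega
    subst hv0
    change cond (Nat.beq C 0) true (f b) = true at h
    cases C with
    | zero => simp at hC
    | succ n => exact h
  | succ k ih =>
    intro b C h v hv hC
    change cond (Nat.beq C 0) true
      (and (go f k b (C % 2 ^ (2 ^ k))) (go f k (b + 2 ^ k) (C >>> (2 ^ k)))) = true at h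
    have h' : (and (go f k b (C % 2 ^ (2 ^ k))) (go f k (b + 2 ^ k) (C >>> (2 ^ k)))) = true := by
      cases C with
      | zero => simp at hC
      | succ n => exact h
    rw [Bool.and_eq_true] at h'
    by_cases hlt : v < 2 ^ k
    · apply ih b _ h'.1 v hlt
      rw [Nat.testBit_mod_two_pow, hC]
      simp [hlt]
    · have h1 := ih (b + 2 ^ k) _ h'.2 (v - 2 ^ k) (by rw [pow_succ] at hv; omega)
        (by
          rw [Nat.testBit_shiftRight]
          have : 2 ^ k + (v - 2 ^ k) = v := by omega
          rw [this]
          exact hC)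
      have : b + 2 ^ k + (v - 2 ^ k) = b + v := by omega
      rwa [this] at h1

theorem ref_zero (S p : ℕ) : ref 0 S p = !(S.testBit 0) := by
  have := beq_testBit S 0
  exact this

theorem ref_succ (j S p : ℕ) : ref (j + 1) S p =
    go (fun h => ref j ((S &&& xs2 S h) &&& mk (lead h)) (lead h + 1)) (10 - j) 0
      (((S % 2 ^ (2 ^ (10 - j))) >>> (2 ^ p)) <<< (2 ^ p)) := rfl

/-- pigeonhole: a closed set of `2 ^ (j + 1)` numbers below `2 ^ 10` has a small nonzero element -/
theorem exists_small (j : ℕ) (hj : j ≤ 10) (W : Finset ℕ) (hcl : ∀ a ∈ W, ∀ b ∈ W, a ^^^ b ∈ W)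
    (hcard : W.card = 2 ^ (j + 1)) (hlt : ∀ v ∈ W, v < 1024) :
    ∃ v ∈ W, v ≠ 0 ∧ v < 2 ^ (10 - j) := by
  by_contra hcon
  push Not at hcon
  have hinj : Set.InjOn (fun v : ℕ => v >>> (10 - j)) (W : Set ℕ) := by
    intro a ha b hb hab
    simp only at hab
    have h1 : (a ^^^ b) ∈ W := hcl a ha b hb
    by_contra hne
    have h2 : a ^^^ b ≠ 0 := by
      intro h0
      exact hne (Nat.xor_eq_zero_iff.mp h0)
    have h3 := hcon _ h1 h2
    have h4 : (a ^^^ b) >>> (10 - j) = 0 := by
      rw [Nat.shiftRight_xor_distrib, hab, Nat.xor_self]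
    rw [Nat.shiftRight_eq_div_pow] at h4
    have h5 := Nat.div_eq_zero_iff.mp h4
    rcases h5 with h5 | h5
    · have : 0 < 2 ^ (10 - j) := by positivity
      omega
    · omega
  have hmaps : ∀ v ∈ W, (fun v : ℕ => v >>> (10 - j)) v ∈ Finset.range (2 ^ j) := by
    intro v hv
    rw [Finset.mem_range]
    simp only
    rw [Nat.shiftRight_eq_div_pow]
    rw [Nat.div_lt_iff_lt_mul (by positivity)]
    have h1 : 2 ^ j * 2 ^ (10 - j) = 1024 := by
      rw [← pow_add]
      have : j + (10 - j) = 10 := by omega
      rw [this]
      norm_num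
    rw [h1]
    exact hlt v hv
  have hle := Finset.card_le_card_of_injOn _ hmaps hinj
  rw [hcard, Finset.card_range, pow_succ] at hle
  have : 0 < 2 ^ j := by positivity
  omega

theorem ref_sound : ∀ (j : ℕ), j ≤ 5 → ∀ (S p : ℕ), ref j S p = true →
    ∀ W : Finset ℕ, (∀ a ∈ W, ∀ b ∈ W, a ^^^ b ∈ W) → W.card = 2 ^ j → (∀ v ∈ W, v < 1024) →
    (∀ v ∈ W, v ≠ 0 → 2 ^ p ≤ v) → (∀ v ∈ W, S.testBit v = true) → False := by
  intro j
  induction j with
  | zero =>
    intro _ S p h W hcl hcard hlt hge hS
    have hne : W.Nonempty := by
      rw [← Finset.card_pos, hcard]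
      norm_num
    obtain ⟨a, ha⟩ := hne
    have h0 : (0 : ℕ) ∈ W := by
      have := hcl a ha a ha
      rwa [Nat.xor_self] at this
    have h1 := hS 0 h0
    rw [ref_zero, h1] at h
    exact absurd h (by decide)
  | succ j ih =>
    intro hj S p h W hcl hcard hlt hge hS
    obtain ⟨v0, hv0, hv0ne, hv0lt⟩ := exists_small j (by omega) W hcl hcard hlt
    have hne : (W.filter (fun v => v ≠ 0)).Nonempty := ⟨v0, Finset.mem_filter.mpr ⟨hv0, hv0ne⟩⟩
    set g := (W.filter (fun v => v ≠ 0)).min' hne with hg
    have hgmem : g ∈ W.filter (fun v => v ≠ 0) := Finset.min'_mem _ hne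
    have hgW : g ∈ W := (Finset.mem_filter.mp hgmem).1
    have hg0 : g ≠ 0 := (Finset.mem_filter.mp hgmem).2
    have hgmin : ∀ v ∈ W, v ≠ 0 → g ≤ v := fun v hv hv0 =>
      Finset.min'_le _ _ (Finset.mem_filter.mpr ⟨hv, hv0⟩)
    have hglt : g < 2 ^ (10 - j) := lt_of_le_of_lt (hgmin v0 hv0 hv0ne) hv0lt
    have hgge : 2 ^ p ≤ g := hge g hgW hg0
    have hg1024 : g < 1024 := hlt g hgW
    rw [ref_succ] at h
    obtain ⟨hq, hqle, hqlt2, hqlt⟩ := lead_eq g hg1024 hg0
    have hstep := go_sound _ _ _ _ h g hglt (by
      rw [Nat.testBit_shiftLeft, Nat.testBit_shiftRight, Nat.testBit_mod_two_pow]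
      have e1 : 2 ^ p + (g - 2 ^ p) = g := by omega
      rw [e1, hS g hgW]
      simp [hgge, hglt])
    simp only [Nat.zero_add] at hstep
    rw [xs2_eq, mk_eq _ hqlt] at hstep
    set W2 := W.filter (fun v => v.testBit (lead g) = false) with hW2
    apply ih (by omega) _ _ hstep W2
    · intro a ha b hb
      rw [hW2, Finset.mem_filter] at ha hb ⊢
      refine ⟨hcl a ha.1 b hb.1, ?_⟩
      rw [Nat.testBit_xor, ha.2, hb.2]
      rfl
    · have hcomp : (W.filter (fun v => ¬ (v.testBit (lead g) = false))).card = W2.card := by
        symm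
        apply Finset.card_bij (fun v _ => v ^^^ g)
        · intro a ha
          rw [hW2, Finset.mem_filter] at ha
          rw [Finset.mem_filter]
          refine ⟨hcl a ha.1 g hgW, ?_⟩
          rw [Nat.testBit_xor, ha.2, hq]
          decide
        · intro a _ b _ hab
          have := congrArg (fun t => t ^^^ g) hab
          simpa [Nat.xor_assoc] using this
        · intro b hb
          rw [Finset.mem_filter] at hb
          refine ⟨b ^^^ g, ?_, ?_⟩
          · rw [hW2, Finset.mem_filter]
            refine ⟨hcl b hb.1 g hgW, ?_⟩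
            have hb2 : b.testBit (lead g) = true := by simpa using hb.2
            rw [Nat.testBit_xor, hb2, hq]
            rfl
          · rw [Nat.xor_assoc, Nat.xor_self, Nat.xor_zero]
      have hsum := Finset.card_filter_add_card_filter_not (s := W)
        (fun v => v.testBit (lead g) = false)
      rw [hcomp, hcard] at hsum
      change W2.card + W2.card = 2 ^ (j + 1) at hsum
      rw [pow_succ] at hsum
      omega
    · intro v hv
      exact hlt v (Finset.mem_filter.mp hv).1
    · intro v hv hv0
      rw [hW2, Finset.mem_filter] at hv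
      have h1 : g ≤ v := hgmin v hv.1 hv0
      have h2 : 2 ^ lead g ≤ g := hqle
      by_contra hcon
      push Not at hcon
      have h3 : v / 2 ^ lead g = 1 := by
        apply Nat.div_eq_of_lt_le
        · omega
        · rw [pow_succ] at hcon
          omega
      have h4 : v.testBit (lead g) = true := by
        rw [Nat.testBit_eq_decide_div_mod_eq, h3]
        rfl
      rw [hv.2] at h4
      exact absurd h4 (by decide)
    · intro v hv
      rw [hW2, Finset.mem_filter] at hv
      have hv1024 := hlt v hv.1
      rw [Nat.testBit_and, Nat.testBit_and, xs_testBit g 10 (le_refl _) S v hv1024,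
        M_testBit _ hqlt v hv1024, hv.2, hS v hv.1]
      have e1 : g % 2 ^ 10 = g := Nat.mod_eq_of_lt (by simpa using hg1024)
      rw [e1, hS _ (hcl v hv.1 g hgW)]
      rfl

end Pool.Agent.Lib.MP_abc6c1_co
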